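import Pool.Agent.W593.ZT.Stm

/-! Project ZT (helper593), part K3L2A (helper28). -/

set_option autoImplicit false

open scoped Classical

namespace Pool.Agent.W28.ZT

open Pool.Agent.W593.ZT

theorem k3l2a (h1 : S_K3W) (h2 : S_K3D1) : S_K3L2A := by
  intro V G _ _ _ c M B W b1 S' a Hp z0 s hK hW hb hP hbx hs1 hs4 hs hu
  obtain ⟨-, -, hsz, -⟩ := h1 V G c M B hK
  refine h2 V G c M B W b1 S' a Hp z0 s hK hb hP hu ?_
  have hv2 : 2 ≤ S'.index := by
    have h0 : S'.index ≠ 0 := AddSubgroup.index_ne_zero_of_finite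
    have h1' : S'.index ≠ 1 := fun h => hP.ne (AddSubgroup.index_eq_one.mp h)
    omega
  have hq : s + 2 ≤ M.index := by nlinarith
  have hHp : (Hp \ B).card + B.card = Hp.card := Finset.card_sdiff_add_card_eq_card hP.sub
  have hWHp : (W \ Hp).card + Hp.card = W.card := Finset.card_sdiff_add_card_eq_card hP.subW
  have hU : (Finset.univ \ B : Finset V).card + B.card = (Finset.univ : Finset V).card :=
    Finset.card_sdiff_add_card_eq_card (Finset.subset_univ B)
  have hnu := hK.nu
  have hncW : (nc c M W B).card = (nc c M Finset.univ B).card := by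
    rcases hW with ⟨rfl, -⟩ | ⟨y, hy, -, rfl⟩
    · rfl
    · congr 1
      unfold nc
      ext z
      simp only [Finset.mem_filter, Finset.mem_sdiff, Finset.mem_erase, Finset.mem_univ, and_true,
        true_and]
      constructor
      · rintro ⟨⟨_, h3⟩, h4⟩; exact ⟨h3, h4⟩
      · rintro ⟨h3, h4⟩
        refine ⟨⟨?_, h3⟩, h4⟩
        rintro rfl
        simp only [Us, nc, Finset.mem_sdiff, Finset.mem_filter, Finset.mem_univ, true_and] at hy
        exact hy.2 ⟨h3, h4⟩
  have hWc : 3 * M.index ≤ W.card := by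
    rcases hW with ⟨rfl, -⟩ | ⟨y, hy, -, rfl⟩
    · omega
    · rw [Finset.card_erase_of_mem (Finset.mem_univ y)]
      omega
  rw [hncW] at hbx
  have hmin : min (nc c M Finset.univ B).card (M.index - 1) = (nc c M Finset.univ B).card := by
    omega
  rw [hmin] at hbx
  rcases hK.sz with h5 | h5 <;> omega

end Pool.Agent.W28.ZT
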